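import Pool.Agent.H306R2.RZ.Stubs

set_option autoImplicit false

namespace Pool.Agent.H86R3.RZ_LIM

open Finset Filter Topology MeasureTheory
open Pool.Agent.H306R2.RZ

noncomputable section

theorem wt_bd (s : ℝ) (w : ℝ → ℝ) (hw : Wt s w) (k : ℕ) : ∃ B : ℝ, Bd k w B := by
  have hcs : HasCompactSupport w := by
    apply HasCompactSupport.intro (K := Set.Icc (-1) s) isCompact_Icc
    intro y hy
    by_contra hne
    exact hy (hw.supp y hne)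
  have hcj : ∀ j : ℕ, HasCompactSupport (iteratedDeriv j w) := by
    intro j
    induction j with
    | zero => simpa [iteratedDeriv_zero] using hcs
    | succ j ih =>
      rw [iteratedDeriv_succ]
      exact ih.deriv
  have hbj : ∀ j : ℕ, ∃ B : ℝ, ∀ y, |iteratedDeriv j w y| ≤ B := by
    intro j
    have hc : Continuous (iteratedDeriv j w) :=
      hw.smooth.continuous_iteratedDeriv j (by exact_mod_cast le_top)
    obtain ⟨B, hB⟩ := hc.bounded_above_of_compact_support (hcj j)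
    exact ⟨B, fun y => by simpa [Real.norm_eq_abs] using hB y⟩
  choose B hB using hbj
  refine ⟨∑ j ∈ range (k + 1), |B j|, ?_⟩
  intro j hj y
  refine (hB j y).trans ((le_abs_self _).trans ?_)
  exact Finset.single_le_sum (f := fun j => |B j|) (fun i _ => abs_nonneg _)
    (Finset.mem_range.2 (by omega))

theorem wt_mono {s t : ℝ} (h : s ≤ t) {w : ℝ → ℝ} (hw : Wt s w) : Wt t w :=
  ⟨hw.smooth, fun y hy => ⟨(hw.supp y hy).1, (hw.supp y hy).2.trans h⟩⟩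

theorem LIM (F : ℝ → ℝ) (hF : TF F) (q : ℕ) (hq : Even q) (hq0 : q ≠ 0) (c : ℝ) (hc : 0 < c)
    (s θ : ℝ) (hs : 1 / 2 ≤ s) (hθ : 0 < θ) (h : 2 * s + 3 * θ < 3 / 2) (w1 w2 Q1 Q2 : ℝ → ℝ)
    (h1 : Wt s w1) (h2 : Wt s w2) (h3 : Wt θ Q1) (h4 : Wt θ Q2) :
    Tendsto (fun L : ℝ => TT F (c * Real.exp L) q L w1 Q1 w2 Q2) atTop
      (𝓝 (1 / 2 * Ft F 0 * BB w1 Q1 w2 Q2)) := by
  have hθs : θ ≤ s := by linarith
  have h3' : Wt s Q1 := wt_mono hθs h3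
  have h4' : Wt s Q2 := wt_mono hθs h4
  have hs1 : s < 1 := by linarith
  obtain ⟨B1, hB1⟩ := wt_bd s w1 h1 1
  obtain ⟨B2, hB2⟩ := wt_bd s w2 h2 1
  obtain ⟨B3, hB3⟩ := wt_bd θ Q1 h3 1
  obtain ⟨B4, hB4⟩ := wt_bd θ Q2 h4 1
  -- diagonal
  have hD := (Stubs.MT1 q hq0 s).2 w1 w2 Q1 Q2 h1 h2 h3' h4'
  -- off-diagonal
  have hO := (Stubs.MT2 F hF q hq0 c hc s hs1).2 w1 w2 Q1 Q2 h1 h2 h3' h4'
  obtain ⟨C, η, a, L0, hC, hη, ha, ha1, hS4⟩ :=
    Stubs.S4 F hF q hq hq0 c hc s θ hs hθ (by linarith)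
  obtain ⟨C', η', L0', hC', hη', hE7⟩ := Stubs.E7 F hF q hq hq0 c hc s θ hs hθ h
  have hexp : ∀ (K η : ℝ), 0 < η → Tendsto (fun L : ℝ => K * Real.exp (-(η * L))) atTop (𝓝 0) := by
    intro K η hη
    have : Tendsto (fun L : ℝ => Real.exp (-(η * L))) atTop (𝓝 0) := by
      apply Real.tendsto_exp_neg_atTop_nhds_zero.comp
      exact tendsto_id.const_mul_atTop hη
    simpa using this.const_mul K
  -- non squares tend to zero
  have hN : Tendsto (fun L : ℝ => ∑' a : Fin 4 → ℕ, t4c q a * w4 L w1 w2 Q1 Q2 a *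
      Dns F (c * Real.exp L) (∏ i, a i)) atTop (𝓝 0) := by
    apply squeeze_zero_norm' _ (hexp (C' * B1 * B2 * B3 * B4) η' hη')
    filter_upwards [eventually_ge_atTop L0'] with L hL
    rw [Real.norm_eq_abs]
    exact hE7 L hL w1 w2 Q1 Q2 B1 B2 B3 B4 h1 h2 h3 h4 hB1 hB2 hB3 hB4
  -- squares
  set I2 : ℝ := ∫ t in Set.Ioi (0 : ℝ), ∫ y in Set.Ioi (0 : ℝ), al w1 Q1 (1 - y) t * al w2 Q2 y t
    with hI2
  set SQ : ℝ → ℝ := fun L : ℝ => ∑' a : Fin 4 → ℕ, t4c q a * w4 L w1 w2 Q1 Q2 a *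
      Dsq F (c * Real.exp L) (∏ i, a i) with hSQ
  have hdiff : Tendsto (fun L : ℝ => ((SQ L : ℝ) : ℂ) -
      T2m F (c * Real.exp L) q L w1 w2 Q1 Q2 (1 / L)) atTop (𝓝 0) := by
    apply squeeze_zero_norm' _ (hexp (C * B1 * B2 * B3 * B4) η hη)
    filter_upwards [eventually_ge_atTop L0, eventually_ge_atTop (2 : ℝ)] with L hL hL2
    have hL0 : 0 < L := by linarith
    have hS5 := Stubs.S5 F hF (c * Real.exp L) (by positivity) q hq0 L hL0 s w1 w2 Q1 Q2 h1 h2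
      h3' h4' (1 / 2 + a) (1 / L) (by positivity) (by
        have : 1 / L ≤ 1 / 2 := by
          apply one_div_le_one_div_of_le (by norm_num) hL2
        linarith) (by linarith)
    rw [← hS5]
    exact hS4 L hL w1 w2 Q1 Q2 B1 B2 B3 B4 h1 h2 h3 h4 hB1 hB2 hB3 hB4
  have hSQc : Tendsto (fun L : ℝ => ((SQ L : ℝ) : ℂ)) atTop
      (𝓝 ((1 / 2 * Ft F 0 * (-(1 / 4) * I2) : ℝ) : ℂ)) := by
    have := hdiff.add hO
    simpa using this
  have hSQr : Tendsto SQ atTop (𝓝 (1 / 2 * Ft F 0 * (-(1 / 4) * I2))) := by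
    have := (Complex.continuous_re.tendsto _).comp hSQc
    simpa [Function.comp_def] using this
  have hsum := ((hD.const_mul (1 / 2 * Ft F 0)).add hSQr).add hN
  have hlim : 1 / 2 * Ft F 0 * BB w1 Q1 w2 Q2 =
      1 / 2 * Ft F 0 * ((mn w1 Q1 * mn w2 Q2 + ∫ t in Set.Ioi (0 : ℝ), ∫ y in Set.Ioi (0 : ℝ),
        al w1 Q1 y t * al w2 Q2 y t) / 4) + 1 / 2 * Ft F 0 * (-(1 / 4) * I2) + 0 := by
    rw [Stubs.ID3 s hs1 w1 w2 Q1 Q2 h1 h2 h3' h4']
    ring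
  rw [hlim]
  refine hsum.congr' ?_
  filter_upwards [eventually_gt_atTop (0 : ℝ)] with L hL
  rw [Stubs.X1 F hF (c * Real.exp L) (by positivity) q hq hq0 L hL s w1 w2 Q1 Q2 h1 h2 h3' h4']

end

end Pool.Agent.H86R3.RZ_LIM
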